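import Pool.Agent.H98.PW.Stmts2

/-! # PW, row PWK: corollaries of THEOREM B -/

set_option autoImplicit false

namespace Pool.PW

open Finset Pool.Agent.H98.ABCR

private theorem pwk_dex_sub (E a : ℕ) :
    dex E 1 a ⊆ (a.primeFactors.image a.factorization).filter (fun e => E < e) := by
  intro e he
  unfold dex at he
  obtain ⟨p, hp, rfl⟩ := Finset.mem_image.mp he
  obtain ⟨hp1, _, hp2⟩ := Finset.mem_filter.mp hp
  exact Finset.mem_filter.mpr ⟨Finset.mem_image_of_mem _ hp1, hp2⟩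

private theorem pwk_dex_card (a : ℕ) : (dex 0 1 a).card ≤ om a := by
  unfold dex om
  exact Finset.card_image_le.trans (Finset.card_filter_le _ _)

private theorem pwk_om_one (h : ℝ) : ((om 1 : ℕ) : ℝ) * Real.log (2 + h / (om 1 : ℕ)) = 0 := by
  have : om 1 = 0 := by simp [om]
  rw [this]; simp

/-- PWK from THEOREM B and the count with few large primes -/
theorem pwk_thm (hF : S_PWF) (hM : S_PWM) : S_PWK := by
  refine ⟨?_, ?_, hM⟩
  · intro k ε hε
    obtain ⟨K, η, C, hK, hη, hC, h⟩ := hF k 0 ε hε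
    refine ⟨K, η, C, hK, hη, hC, fun X F hX hv => ?_⟩
    have h1 := h X 1 F hX le_rfl ?_
    · simpa using h1
    intro v hvF
    obtain ⟨a, b, c, d, e⟩ := hv v hvF
    refine ⟨a, b, d, e, 1, one_dvd _, by simp, (pwk_dex_card _).trans c, ?_⟩
    rw [pwk_om_one]
    exact mul_nonneg hη.le (Real.log_nonneg hX)
  · intro N E ε hε
    obtain ⟨K, η, C, hK, hη, hC, h⟩ := hF N E ε hε
    refine ⟨K, η, C, hK, hη, hC, fun X F hX hv => ?_⟩
    have h1 := h X 1 F hX le_rfl ?_
    · simpa using h1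
    intro v hvF
    obtain ⟨a, b, c, d, e⟩ := hv v hvF
    refine ⟨a, b, d, e, 1, one_dvd _, by simp, (Finset.card_le_card (pwk_dex_sub _ _)).trans c, ?_⟩
    rw [pwk_om_one]
    exact mul_nonneg hη.le (Real.log_nonneg hX)

end Pool.PW
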